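import Mathlib

/-! Complete digraphs with bounded positive weights have a cycle whose weight is a power. -/

set_option autoImplicit false

namespace Pool.Agent.P.MP_bb4f54_co.Iso

open Finset

variable {ι : Type} [DecidableEq ι]

/-- the difference between two routes from `a` to `b` -/
def gd (w : ι → ι → ℕ) (a u b : ι) : ℤ := (w a u : ℤ) + w u b - w a b

open Classical in
/-- the differences seen inside `R` -/
noncomputable def TT (w : ι → ι → ℕ) (W : ℕ) (R : Finset ι) : Finset ℤ :=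
  (Icc (-(W : ℤ)) (2 * W)).filter fun g =>
    ∃ a ∈ R, ∃ u ∈ R, ∃ b ∈ R, a ≠ u ∧ a ≠ b ∧ u ≠ b ∧ gd w a u b = g

/-- closure rules of a family of weighted paths -/
structure Rules (w : ι → ι → ℕ) (P : ι → ι → Finset ι → ℕ → Prop) : Prop where
  base : ∀ s t, s ≠ t → P s t ∅ (w s t)
  step : ∀ s t U σ a, P s t U σ → s ≠ t → t ∉ U → a ∉ U → a ≠ t →
    P s a (insert t U) (σ + w t a)
  mono : ∀ s t U U' σ, U ⊆ U' → P s t U σ → P s t U' σ

variable {w : ι → ι → ℕ} {W : ℕ}

theorem gd_mem (hw : ∀ a b, 1 ≤ w a b ∧ w a b ≤ W) {R : Finset ι} {a u b : ι} (ha : a ∈ R)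
    (hu : u ∈ R) (hb : b ∈ R) (h1 : a ≠ u) (h2 : a ≠ b) (h3 : u ≠ b) : gd w a u b ∈ TT w W R := by
  simp only [TT, mem_filter, mem_Icc]
  refine ⟨?_, a, ha, u, hu, b, hb, h1, h2, h3, rfl⟩
  have := hw a u
  have := hw u b
  have := hw a b
  unfold gd
  omega

theorem TT_card (R : Finset ι) : (TT w W R).card ≤ 3 * W + 1 := by
  refine (card_filter_le _ _).trans ?_
  rw [Int.card_Icc]
  omega

theorem TT_mono {R R' : Finset ι} (h : R' ⊆ R) : TT w W R' ⊆ TT w W R := by
  intro g hg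
  simp only [TT, mem_filter] at hg ⊢
  obtain ⟨h0, a, ha, u, hu, b, hb, h1⟩ := hg
  exact ⟨h0, a, h ha, u, h hu, b, h hb, h1⟩

theorem robust [Fintype ι] (K : ℕ) (h : K * (3 * W + 2) ≤ Fintype.card ι) :
    ∃ R : Finset ι, K ≤ R.card ∧ ∀ U : Finset ι, U.card ≤ K → TT w W (R \ U) = TT w W R := by
  obtain ⟨R, hR, hm⟩ := exists_min_image
    (univ.filter fun R : Finset ι => K * ((TT w W R).card + 1) ≤ R.card)
    (fun R => (TT w W R).card) ⟨univ, by
      simp only [mem_filter, mem_univ, true_and, card_univ]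
      exact (Nat.mul_le_mul_left _ (Nat.succ_le_succ (TT_card _))).trans h⟩
  simp only [mem_filter, mem_univ, true_and] at hR hm
  refine ⟨R, le_trans (by nlinarith) hR, fun U hU => ?_⟩
  refine eq_of_subset_of_card_le (TT_mono sdiff_subset) ?_
  by_contra hc
  have h1 := le_card_sdiff U R
  have h2 : K * ((TT w W (R \ U)).card + 1) ≤ K * (TT w W R).card :=
    Nat.mul_le_mul_left _ (by omega)
  rw [mul_add, mul_one] at hR
  exact hc (hm _ (by omega))

theorem block (hw : ∀ a b, 1 ≤ w a b ∧ w a b ≤ W) {P : ι → ι → Finset ι → ℕ → Prop}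
    (hP : Rules w P) {R : Finset ι} {K : ℕ} (hK : K ≤ R.card)
    (hR : ∀ U : Finset ι, U.card ≤ K → TT w W (R \ U) = TT w W R) (m : Multiset ℤ)
    (hm : ∀ g ∈ m, g ∈ TT w W R) (hc : 3 * m.card + 2 ≤ K) :
    ∃ s ∈ R, ∃ t ∈ R, ∃ (U : Finset ι) (L : ℤ), s ≠ t ∧ s ∉ U ∧ t ∉ U ∧ U.card ≤ 3 * m.card ∧
      L - w s t ∈ Submodule.span ℤ (TT w W R : Set ℤ) ∧ ∀ m' ≤ m, ∃ σ : ℕ,
        (σ : ℤ) = L + m'.sum ∧ σ ≤ W * (3 * m.card + 1) ∧ P s t U σ := by
  induction m using Multiset.induction_on with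
  | empty =>
    obtain ⟨s, hs, t, ht, hst⟩ := one_lt_card.1 (show 1 < R.card by omega)
    refine ⟨s, hs, t, ht, ∅, w s t, hst, by simp, by simp, by simp, by simp, fun m' h => ?_⟩
    obtain rfl := Multiset.le_zero.1 h
    exact ⟨w s t, by simp, by simpa using (hw s t).2, hP.base s t hst⟩
  | cons g m ih =>
    rw [Multiset.card_cons] at hc ⊢
    obtain ⟨s, hs, t, ht, U, L, hst, hsU, htU, hU, hL, h⟩ :=
      ih (fun g hg => hm g (Multiset.mem_cons_of_mem hg)) (by omega)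
    have hg := hm g (Multiset.mem_cons_self _ _)
    have hcard : (insert s (insert t U)).card ≤ K :=
      (card_insert_le _ _).trans (by have := card_insert_le t U; omega)
    rw [← hR _ hcard] at hg
    simp only [TT, mem_filter, mem_sdiff, mem_insert, not_or] at hg
    obtain ⟨-, a, ⟨ha, as, at', aU⟩, u, ⟨hu, us, ut, uU⟩, b, ⟨hb, bs, bt, bU⟩, au, ab, ub, e⟩ := hg
    refine ⟨s, hs, b, hb, insert u (insert a (insert t U)), L + w t a + w a b, Ne.symm bs,
      by simp [hst, hsU, Ne.symm as, Ne.symm us], by simp [bt, bU, ab.symm, ub.symm], ?_, ?_,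
      fun m' hm' => ?_⟩
    · have := card_insert_le u (insert a (insert t U))
      have := card_insert_le a (insert t U)
      have := card_insert_le t U
      omega
    · have e1 : L + w t a + w a b - w s b = L - w s t + gd w s t a + gd w s a b := by
        unfold gd
        ring
      rw [e1]
      exact add_mem (add_mem hL (Submodule.subset_span
        (gd_mem hw hs ht ha hst (Ne.symm as) (Ne.symm at'))))
        (Submodule.subset_span (gd_mem hw hs ha hb (Ne.symm as) (Ne.symm bs) ab))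
    · have w1 := (hw t a).2
      have w2 := (hw a b).2
      have w3 := (hw a u).2
      have w4 := (hw u b).2
      by_cases hgm : g ∈ m'
      · obtain ⟨σ, e1, e2, e3⟩ := h _ (Multiset.erase_le_iff_le_cons.2 hm')
        have p1 := hP.step _ _ _ _ a e3 hst htU aU at'
        have p2 := hP.step _ _ _ _ u p1 (Ne.symm as) (by simp [at', aU]) (by simp [ut, uU]) au.symm
        have p3 := hP.step _ _ _ _ b p2 (Ne.symm us) (by simp [ut, uU, au.symm])
          (by simp [bt, bU, ab.symm]) ub.symm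
        refine ⟨_, ?_, by nlinarith, p3⟩
        rw [← Multiset.cons_erase hgm, Multiset.sum_cons, ← e]
        push_cast
        rw [e1, e]
        rw [← e]
        unfold gd
        ring
      · obtain ⟨σ, e1, e2, e3⟩ := h _ ((Multiset.le_cons_of_notMem hgm).1 hm')
        have p1 := hP.step _ _ _ _ a e3 hst htU aU at'
        have p2 := hP.step _ _ _ _ b p1 (Ne.symm as) (by simp [at', aU]) (by simp [bt, bU]) ab.symm
        refine ⟨_, ?_, by nlinarith, hP.mono _ _ _ _ _ (subset_insert _ _) p2⟩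
        push_cast
        rw [e1]
        ring

theorem add_pow_le (x d n : ℕ) : (x + d) ^ (n + 1) ≤ x ^ (n + 1) + (n + 1) * d * (x + d) ^ n := by
  induction n with
  | zero => simp
  | succ n ih =>
    have h1 := Nat.mul_le_mul_right (x + d) ih
    have h2 := Nat.mul_le_mul_left d (Nat.pow_le_pow_left (Nat.le_add_right x d) (n + 1))
    simp only [pow_succ] at *
    nlinarith

theorem hit {n d y L : ℕ} (hd : 1 ≤ d) (hy : d ≤ y) (h1 : 1 ≤ L) (h2 : L ≤ y ^ (n + 1))
    (h3 : d ∣ L) : ∃ a j, (d * a) ^ (n + 1) = L + j * d ∧ j ≤ (n + 1) * (2 * y) ^ n := by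
  have ex : ∃ a, L ≤ (d * a) ^ (n + 1) :=
    ⟨y, h2.trans (Nat.pow_le_pow_left (Nat.le_mul_of_pos_left _ hd) _)⟩
  obtain ⟨b, hb⟩ : ∃ b, Nat.find ex = b + 1 := by
    refine Nat.exists_eq_succ_of_ne_zero fun h => ?_
    have := Nat.find_spec ex
    rw [h] at this
    simp at this
    omega
  have a1 := Nat.find_spec ex
  have a2 := not_le.1 (Nat.find_min ex (show b < Nat.find ex by omega))
  rw [hb] at a1
  have a3 : d * b < y := lt_of_pow_lt_pow_left₀ _ (Nat.zero_le _) (a2.trans_le h2)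
  have a4 := add_pow_le (d * b) d n
  have a5 : (d * b + d) ^ n ≤ (2 * y) ^ n := Nat.pow_le_pow_left (by omega) _
  obtain ⟨j, hj⟩ : d ∣ (d * (b + 1)) ^ (n + 1) - L :=
    Nat.dvd_sub (dvd_pow (dvd_mul_right _ _) (Nat.succ_ne_zero _)) h3
  refine ⟨b + 1, j, by rw [mul_comm j]; omega, Nat.le_of_mul_le_mul_left ?_ hd⟩
  have a6 := Nat.mul_le_mul_left ((n + 1) * d) a5
  rw [mul_add, mul_one] at hj a1
  have : d * ((n + 1) * (2 * y) ^ n) = (n + 1) * d * (2 * y) ^ n := by ring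
  omega

theorem dig (q : ℕ) (hq : 2 ≤ q) : ∃ C : ℕ, ∀ (ι : Type) [DecidableEq ι] [Fintype ι]
    (w : ι → ι → ℕ) (W : ℕ) (P : ι → ι → Finset ι → ℕ → Prop), 1 ≤ W →
    (∀ a b, 1 ≤ w a b ∧ w a b ≤ W) → Rules w P → C * W ^ (2 * q - 1) ≤ Fintype.card ι →
      ∃ s U a, P s s U (a ^ q) := by
  obtain ⟨n, rfl⟩ : ∃ n, q = n + 2 := ⟨q - 2, by omega⟩
  set D := 6 * ((n + 2) * 2 ^ (n + 1)) + 8 with hD
  refine ⟨5 * (3 * ((n + 2) * (2 * D) ^ (n + 1)) + 27), ?_⟩
  intro ι _ _ w W P hW hw hP hc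
  rw [show 2 * (n + 2) - 1 = 2 * n + 3 by omega] at hc
  set y := D * W ^ 2 with hy
  set J := (n + 2) * (2 * y) ^ (n + 1) with hJ
  have hJ' : J = (n + 2) * (2 * D) ^ (n + 1) * W ^ (2 * n + 2) := by
    rw [hJ, hy, ← mul_assoc 2, mul_pow, ← pow_mul]
    ring
  obtain ⟨R, hK, hR⟩ := robust (w := w) (W := W) (3 * (J + 8 * W ^ 2) + 3) (le_trans (by
    have h1 : W ^ 2 ≤ W ^ (2 * n + 2) := Nat.pow_le_pow_right hW (by omega)
    have h2 : 1 ≤ W ^ 2 := Nat.one_le_pow _ _ hW
    calc (3 * (J + 8 * W ^ 2) + 3) * (3 * W + 2)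
        ≤ (3 * J + 27 * W ^ (2 * n + 2)) * (5 * W) := Nat.mul_le_mul (by omega) (by omega)
      _ = _ := by rw [hJ']; ring) hc)
  have third : ∀ s t : ι, ∃ c ∈ R, c ≠ s ∧ c ≠ t := fun s t => by
    obtain ⟨c, h1, h2⟩ := exists_mem_notMem_of_card_lt_card (s := {s, t}) (t := R)
      ((card_le_two).trans_lt (by omega))
    exact ⟨c, h1, by simpa [not_or] using h2⟩
  obtain ⟨d, hd, hdT⟩ : ∃ d : ℕ, 1 ≤ d ∧ (d : ℤ) ∈ TT w W R := by
    obtain ⟨u, hu, b, hb, ub⟩ := one_lt_card.1 (show 1 < R.card by omega)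
    obtain ⟨a, ha, au, ab⟩ := third u b
    have h1 := gd_mem hw ha hu hb au ab ub
    have h2 := gd_mem hw ha hb hu ab au ub.symm
    have h3 : 0 < gd w a u b ∨ 0 < gd w a b u := by
      have := (hw u b).1
      unfold gd
      omega
    rcases h3 with h3 | h3
    · exact ⟨(gd w a u b).toNat, by omega, by rwa [Int.toNat_of_nonneg h3.le]⟩
    · exact ⟨(gd w a b u).toNat, by omega, by rwa [Int.toNat_of_nonneg h3.le]⟩
  have hd2 : d ≤ 2 * W := by
    have := (mem_Icc.1 (mem_filter.1 hdT).1).2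
    omega
  set T := TT w W R with hT
  have hmc : (Multiset.replicate J (d : ℤ) + ∑ g ∈ T, Multiset.replicate d g).card ≤
      J + 8 * W ^ 2 := by
    simp only [Multiset.card_add, Multiset.card_replicate, Multiset.card_sum, sum_const,
      smul_eq_mul]
    have := Nat.mul_le_mul (TT_card (w := w) (W := W) R) hd2
    nlinarith
  obtain ⟨s, hs, t, ht, U, L, hst, hsU, htU, -, hL, h⟩ := block hw hP hK hR
    (Multiset.replicate J (d : ℤ) + ∑ g ∈ T, Multiset.replicate d g) (fun g hg => by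
      simp only [Multiset.mem_add, Multiset.mem_sum] at hg
      rcases hg with hg | ⟨g', h1, hg⟩
      · rwa [Multiset.eq_of_mem_replicate hg]
      · rwa [Multiset.eq_of_mem_replicate hg]) (by omega)
  obtain ⟨c, hc, cs, ct⟩ := third s t
  have h0 : L + w t s ∈ Submodule.span ℤ (T : Set ℤ) := by
    have e1 : L + w t s = L - w s t + gd w c s t + gd w c t s := by
      unfold gd
      ring
    rw [e1]
    exact add_mem (add_mem hL (Submodule.subset_span (gd_mem hw hc hs ht cs ct hst)))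
      (Submodule.subset_span (gd_mem hw hc ht hs ct cs hst.symm))
  obtain ⟨f, -, hf⟩ := Submodule.mem_span_finset.1 h0
  have hd0 : (0 : ℤ) < d := by exact_mod_cast hd
  have key : ∀ j ≤ J, ∃ σ : ℕ, (σ : ℤ) + w t s = ∑ g ∈ T, (f g + -f g % d) * g + j * d ∧
      σ ≤ W * (3 * (J + 8 * W ^ 2) + 1) ∧ P s t U σ := fun j hj => by
    obtain ⟨σ, e1, e2, e3⟩ := h (Multiset.replicate j (d : ℤ) +
        ∑ g ∈ T, Multiset.replicate (-f g % d).toNat g)
      (add_le_add ((Multiset.replicate_le_replicate _).2 hj) (sum_le_sum fun g _ =>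
        (Multiset.replicate_le_replicate _).2 (by have := Int.emod_lt_of_pos (-f g) hd0; omega)))
    refine ⟨σ, ?_, e2.trans (Nat.mul_le_mul_left _ (by omega)), e3⟩
    have e4 : ∀ g, ((-f g % d).toNat : ℤ) = -f g % d := fun g =>
      Int.toNat_of_nonneg (Int.emod_nonneg _ hd0.ne')
    simp only [Multiset.sum_add, Multiset.sum_replicate, Multiset.sum_sum, nsmul_eq_mul, e4,
      smul_eq_mul] at e1 hf
    simp only [add_mul, sum_add_distrib, hf, e1]
    ring
  obtain ⟨σ, e1, e2, -⟩ := key 0 (Nat.zero_le _)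
  have hdv : d ∣ σ + w t s := by
    rw [← Int.natCast_dvd_natCast]
    push_cast
    rw [e1]
    refine dvd_add (dvd_sum fun g _ => Dvd.dvd.mul_right ?_ _) (by simp)
    have := Int.dvd_sub_self_of_emod_eq (rfl : -f g % d = -f g % d)
    rwa [sub_neg_eq_add, add_comm] at this
  have w1 := hw t s
  have hW2 : W ≤ W ^ 2 := by nlinarith
  have hy8 : 8 * W ^ 2 ≤ y := Nat.mul_le_mul_right _ (by omega)
  obtain ⟨a, j, e3, hj⟩ := hit (n := n + 1) (y := y) hd (by omega) (by omega) (show σ + w t s ≤ _ by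
    have a1 : 6 * (W * J) ≤ y ^ (n + 1 + 1) := by
      calc 6 * (W * J) = 6 * ((n + 2) * 2 ^ (n + 1)) * W * y ^ (n + 1) := by
            rw [hJ, mul_pow]; ring
        _ ≤ y * y ^ (n + 1) := Nat.mul_le_mul_right _ (Nat.mul_le_mul (by omega) hW2)
        _ = _ := by ring
    have a2 : 64 * (W * W ^ 2) ≤ y ^ (n + 1 + 1) := by
      calc 64 * (W * W ^ 2) ≤ (8 * W ^ 2) ^ 2 := by nlinarith
        _ ≤ y ^ 2 := Nat.pow_le_pow_left hy8 _
        _ ≤ _ := Nat.pow_le_pow_right (by omega) (by omega)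
    have a3 : W ≤ W * W ^ 2 := by nlinarith
    have a4 : W * (3 * (J + 8 * W ^ 2) + 1) = 3 * (W * J) + 24 * (W * W ^ 2) + W := by ring
    omega) hdv
  obtain ⟨τ, e4, -, e5⟩ := key j hj
  have e6 : τ + w t s = (d * a) ^ (n + 2) := by
    rw [e3]
    zify
    rw [e4, e1]
    simp
  exact ⟨s, _, d * a, e6 ▸ hP.step _ _ _ _ s e5 hst htU hsU hst⟩

end Pool.Agent.P.MP_bb4f54_co.Iso
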