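import Pool.Agent.P.MP_bb4f54_co.Iso.Prs

/-! Sets of every size with few outside neighbours. -/

set_option autoImplicit false

namespace Pool.Agent.P.MP_bb4f54_co.Iso

open Finset SimpleGraph Classical

theorem Sep.mono {V : Type} {G : SimpleGraph V} {Y : Finset V} {s s' : ℝ} (h : Sep G Y s)
    (e : s ≤ s') : Sep G Y s' := by
  obtain ⟨A, B, S, a, b, c, d, f, g⟩ := h
  exact ⟨A, B, S, a, b, c, d, f, g.trans e⟩

theorem rpow_mul_eq {m c : ℝ} (hm : 0 < m) : m ^ (1 - c) * m ^ c = m := by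
  rw [← Real.rpow_add hm, sub_add_cancel, Real.rpow_one]

theorem sep (q : ℕ) (hq : 2 ≤ q) : ∃ C : ℝ, 0 < C ∧ ∀ (V : Type) (G : SimpleGraph V),
    ¬ HasPow G q → ∀ Y : Finset V, Sep G Y (C * (Y.card : ℝ) ^ (1 - 1 / (8 * (q : ℝ)))) := by
  obtain ⟨C, H⟩ := minor q hq
  obtain ⟨e, he⟩ : ∃ e, 2 * q = e + 1 := ⟨2 * q - 1, by omega⟩
  rw [show 2 * q - 1 = e by omega] at H
  have hp : (8 * (q : ℝ)) = (4 * e + 4 : ℕ) := by exact_mod_cast (by omega : 8 * q = 4 * e + 4)
  rw [hp]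
  set p := 4 * e + 4 with hp'
  refine ⟨1 + (((C + 1) * (5 * p) ^ e) ^ 2 * (4 * p) : ℕ) * 2 ^ (4 * e + 3), by positivity,
    fun V G hG Y => ?_⟩
  rcases Y.eq_empty_or_nonempty with rfl | hY
  · exact ⟨∅, ∅, ∅, by simp, by simp, by simp, by simp, by simp, by
      rw [card_empty, Nat.cast_zero]; positivity⟩
  have hm : (1 : ℝ) ≤ Y.card := by exact_mod_cast card_pos.2 hY
  have h1 := rpow_mul_eq (c := 1 / (p : ℝ)) (zero_lt_one.trans_le hm)
  have h2 : ((Y.card : ℝ) ^ (1 / (p : ℝ))) ^ p = Y.card := by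
    rw [one_div]
    exact Real.rpow_inv_natCast_pow (by positivity) (by omega)
  have h3 : 1 ≤ (Y.card : ℝ) ^ (1 / (p : ℝ)) := Real.one_le_rpow hm (by positivity)
  generalize (Y.card : ℝ) ^ (1 / (p : ℝ)) = u at h1 h2 h3
  generalize (Y.card : ℝ) ^ (1 - 1 / (p : ℝ)) = φ at h1 ⊢
  have h4 : φ = u ^ (4 * e + 3) :=
    mul_right_cancel₀ (show u ≠ 0 by positivity) (by rw [h1, ← h2, hp', pow_succ])
  have l1 := Nat.le_ceil u
  have l2 := Nat.ceil_lt_add_one (zero_le_one.trans h3)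
  generalize ⌈u⌉₊ = l at l1 l2
  have l0 : 0 < l := by exact_mod_cast zero_lt_one.trans_le (h3.trans l1)
  have l3 : Y.card ≤ l ^ p := by
    have : (Y.card : ℝ) ≤ (l : ℝ) ^ p := h2 ▸ pow_le_pow_left₀ (by positivity) l1 p
    exact_mod_cast this
  rcases prs (G := G) (Y := Y) (l := l) (j := l * p) _
    (l3.trans (pow_mul 2 l p ▸ Nat.pow_le_pow_left Nat.lt_two_pow_self.le p)) l0 with
    ⟨F, a, b⟩ | h
  · exact (hG (H V G _ F a b)).elim
  refine h.mono ?_
  have a1 : (Y.card : ℝ) / l ≤ φ := by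
    rw [div_le_iff₀ (by positivity), ← h1, h4]
    gcongr
  have a2 : 1 ≤ l * (l * p) := Nat.mul_pos l0 (Nat.mul_pos l0 (by omega))
  have a3 : C * (2 * (l * (l * p)) + 2 * (l * (l * p)) + 1) ^ e ≤
      (C + 1) * (5 * (l * (l * p))) ^ e :=
    Nat.mul_le_mul (Nat.le_succ _) (Nat.pow_le_pow_left (by omega) _)
  have a4 : 1 ≤ (C + 1) * (5 * (l * (l * p))) ^ e := Nat.mul_pos (by omega) (by positivity)
  have a5 : ∀ h K r : ℕ, h ≤ K → 1 ≤ K → 1 ≤ r → h * (1 + h * (2 * r + 1)) ≤ K * (K * (4 * r)) :=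
    fun h K r b1 b2 b3 => Nat.mul_le_mul b1 (by
      have := Nat.mul_le_mul_right (2 * r + 1) b1
      nlinarith)
  have a6 := (a5 _ _ _ a3 a4 a2).trans (show _ ≤ ((C + 1) * (5 * p) ^ e) ^ 2 * (4 * p) *
      l ^ (4 * e + 3) by
    refine le_trans (le_of_eq ?_) (Nat.mul_le_mul_left _
      (Nat.pow_le_pow_right l0 (show 4 * e + 2 ≤ _ by omega)))
    simp only [mul_pow]
    ring)
  have a7 : (l : ℝ) ^ (4 * e + 3) ≤ 2 ^ (4 * e + 3) * φ := by
    rw [h4, ← mul_pow]
    exact pow_le_pow_left₀ (by positivity) (by linarith) _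
  rw [add_mul, one_mul, mul_assoc _ ((2 : ℝ) ^ (4 * e + 3))]
  refine add_le_add a1 (le_trans ?_ (mul_le_mul_of_nonneg_left a7 (by positivity)))
  exact_mod_cast a6

theorem scale {c C : ℝ} (hc : 0 < c) (hc1 : c ≤ 1) (hC : 0 < C) : ∃ (K : ℝ) (N₀ : ℕ), 0 < K ∧
    0 < N₀ ∧ ∀ (V : Type) (G : SimpleGraph V),
    (∀ Y : Finset V, Sep G Y (C * (Y.card : ℝ) ^ (1 - c))) → ∀ (R : Finset V) (N : ℕ), N₀ ≤ N →
      N ≤ R.card → ∃ X ⊆ R, N ≤ 5 * X.card ∧ X.card ≤ N ∧
        ((nb G R X).card : ℝ) ≤ K * (X.card : ℝ) ^ (1 - c) := by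
  have hκ : 1 < (4 / 3 : ℝ) ^ c := Real.one_lt_rpow (by norm_num) hc
  obtain ⟨K, hK, hK'⟩ : ∃ K : ℝ, 0 < K ∧ K * (4 / 3) ^ c = K + 5 * C := by
    have : (0 : ℝ) < (4 / 3) ^ c - 1 := by linarith
    exact ⟨5 * C / ((4 / 3) ^ c - 1), by positivity, by field_simp; ring⟩
  obtain ⟨N₀, hN⟩ := Filter.eventually_atTop.1 (((tendsto_rpow_atTop hc).comp
    tendsto_natCast_atTop_atTop).eventually_ge_atTop (10 * (K + 5 * C)))
  refine ⟨K, N₀ + 1, hK, by omega, fun V G hs R N h0 h1 => ?_⟩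
  obtain ⟨X, hX, hm⟩ := exists_min_image (R.powerset.filter fun X => N ≤ 5 * X.card ∧
    ((nb G R X).card : ℝ) ≤ K * (X.card : ℝ) ^ (1 - c)) card ⟨R, by
      have : nb G R R = ∅ := filter_eq_empty_iff.2 fun v hv h => h.1 hv
      simp only [mem_filter, mem_powerset, this, card_empty, Nat.cast_zero]
      exact ⟨Subset.rfl, by omega, by positivity⟩⟩
  simp only [mem_filter, mem_powerset, and_imp] at hX hm
  obtain ⟨x1, x2, x3⟩ := hX
  refine ⟨X, x1, x2, not_lt.1 fun hN' => ?_, x3⟩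
  obtain ⟨A, B, S, s1, s2, s3, s4, s5, s6⟩ := hs (X ∪ nb G R X)
  have m0 : (0 : ℝ) < X.card := by exact_mod_cast (by omega : 0 < X.card)
  have m1 := rpow_mul_eq (c := c) m0
  have m2 : 10 * (K + 5 * C) ≤ (X.card : ℝ) ^ c := hN _ (by omega)
  have m3 : (0 : ℝ) < (X.card : ℝ) ^ (1 - c) := by positivity
  have m4 := mul_le_mul_of_nonneg_left m2 m3.le
  have m5 : ((X ∪ nb G R X).card : ℝ) ≤ X.card + (nb G R X).card := by
    exact_mod_cast card_union_le _ _
  have m6 : ((X ∪ nb G R X).card : ℝ) ^ (1 - c) ≤ 2 * (X.card : ℝ) ^ (1 - c) := by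
    refine (Real.rpow_le_rpow (by positivity) (show _ ≤ 2 * (X.card : ℝ) by nlinarith)
      (by linarith)).trans ?_
    rw [Real.mul_rpow (by norm_num) m0.le]
    gcongr
    exact (Real.rpow_le_rpow_of_exponent_le one_le_two (by linarith)).trans_eq (Real.rpow_one 2)
  have m7 : (S.card : ℝ) ≤ C * (2 * (X.card : ℝ) ^ (1 - c)) := s6.trans (by gcongr)
  have m8 : (X.card : ℝ) ≤ (X ∩ A).card + (X ∩ B).card + S.card := by
    have : X ⊆ X ∩ A ∪ X ∩ B ∪ S := fun v hv => by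
      have := s1 v (mem_union_left _ hv)
      simp only [mem_union, mem_inter]
      tauto
    exact_mod_cast (card_le_card this).trans ((card_union_le _ _).trans
      (Nat.add_le_add_right (card_union_le _ _) _))
  have m9 : ∀ A : Finset V, 3 * A.card ≤ 2 * (X ∪ nb G R X).card →
      3 * ((X ∩ A).card : ℝ) ≤ 2 * (X.card + (nb G R X).card) := fun A h => by
    have := card_le_card (inter_subset_right (s₁ := X) (s₂ := A))
    have := card_union_le X (nb G R X)
    exact_mod_cast (by omega)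
  have part : ∀ A B : Finset V, (∀ v ∈ X ∪ nb G R X, v ∈ A ∨ v ∈ B ∨ v ∈ S) →
      (∀ u ∈ A, ∀ v ∈ B, ¬ G.Adj u v) → 4 * ((X ∩ A).card : ℝ) ≤ 3 * X.card →
      (X.card : ℝ) ≤ 5 * (X ∩ A).card → (K + 5 * C) * (X ∩ A).card <
        ((nb G R X ∩ A).card + S.card) * (X.card : ℝ) ^ c := by
    intro A B t1 t2 t3 t4
    have t3' : 4 * (X ∩ A).card ≤ 3 * X.card := by exact_mod_cast t3
    have t4' : X.card ≤ 5 * (X ∩ A).card := by exact_mod_cast t4
    have b1 := not_le.1 fun h => absurd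
      (hm (X ∩ A) (inter_subset_left.trans x1) (by omega) h) (by omega)
    have b2 : ((nb G R (X ∩ A)).card : ℝ) ≤ (nb G R X ∩ A).card + S.card := by
      have : nb G R (X ∩ A) ⊆ nb G R X ∩ A ∪ S := fun v hv => by
        obtain ⟨c1, c2, u, hu, e⟩ := mem_nb.1 hv
        have c3 : v ∉ X → v ∈ nb G R X := fun h => mem_nb.2 ⟨c1, h, u, (mem_inter.1 hu).1, e⟩
        have c4 := t1 v (mem_union.2 (or_iff_not_imp_left.2 c3))
        have c5 := fun h => t2 u (mem_inter.1 hu).2 v h e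
        simp only [mem_union, mem_inter] at c2 ⊢
        tauto
      exact_mod_cast (card_le_card this).trans (card_union_le _ _)
    have b3 := rpow_mul_eq (c := c) (show (0 : ℝ) < (X ∩ A).card by linarith)
    have b4 : (4 / 3 : ℝ) ^ c * ((X ∩ A).card : ℝ) ^ c ≤ (X.card : ℝ) ^ c := by
      rw [← Real.mul_rpow (by norm_num) (by positivity)]
      exact Real.rpow_le_rpow (by positivity) (by linarith) hc.le
    calc (K + 5 * C) * (X ∩ A).card
        = K * ((X ∩ A).card : ℝ) ^ (1 - c) * ((4 / 3) ^ c * ((X ∩ A).card : ℝ) ^ c) := by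
          rw [← hK']
          linear_combination (-K * (4 / 3) ^ c) * b3
      _ ≤ K * ((X ∩ A).card : ℝ) ^ (1 - c) * (X.card : ℝ) ^ c := by gcongr
      _ < _ := mul_lt_mul_of_pos_right (b1.trans_le b2) (by positivity)
  have n1 := m9 A s4
  have n2 := m9 B s5
  have n3 : 10 * ((nb G R X).card + (S.card : ℝ)) ≤ X.card := by nlinarith
  have n4 : (0 : ℝ) ≤ S.card := by positivity
  have n5 : (0 : ℝ) ≤ (nb G R X).card := by positivity
  have p1 := part A B s1 s3 (by linarith) (by linarith)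
  have p2 := part B A (fun v hv => or_left_comm.1 (s1 v hv))
    (fun u hu v hv e => s3 v hv u hu e.symm) (by linarith) (by linarith)
  have p3 : ((nb G R X ∩ A).card : ℝ) + (nb G R X ∩ B).card ≤ (nb G R X).card := by
    rw [← Nat.cast_add, Nat.cast_le,
      ← card_union_of_disjoint (s2.mono inter_subset_right inter_subset_right)]
    exact card_le_card (union_subset inter_subset_left inter_subset_left)
  have t0 : (0 : ℝ) < (X.card : ℝ) ^ c := by positivity
  generalize (X.card : ℝ) ^ c = t at *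
  generalize (X.card : ℝ) ^ (1 - c) = u at *
  have p4 := mul_le_mul_of_nonneg_right (p3.trans x3) t0.le
  have p5 := mul_le_mul_of_nonneg_right m7 t0.le
  have p6 := mul_le_mul_of_nonneg_left m8 (show 0 ≤ K + 5 * C by positivity)
  have p7 := mul_le_mul_of_nonneg_left m2 n4
  have p8 : 0 < C * (u * t) := by positivity
  rw [← m1] at p6
  nlinarith

theorem exact_size {c C : ℝ} (hc : 0 < c) (hc1 : c ≤ 1 / 2) (hC : 0 < C) : ∃ K : ℝ,
    ∀ (V : Type) (G : SimpleGraph V), (∀ Y : Finset V, Sep G Y (C * (Y.card : ℝ) ^ (1 - c))) →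
      ∀ (N : ℕ) (R : Finset V), N ≤ R.card → ∃ X ⊆ R, X.card = N ∧
        ((nb G R X).card : ℝ) ≤ K * (N : ℝ) ^ (1 - c) := by
  obtain ⟨K, N₀, hK, h0, H⟩ := scale hc (by linarith) hC
  refine ⟨10 * K + 5 * N₀ * (1 + K), fun V G hs N => ?_⟩
  induction N using Nat.strong_induction_on with
  | _ N ih =>
    intro R hR
    rcases N.eq_zero_or_pos with rfl | hN
    · exact ⟨∅, by simp, rfl, by
        rw [show nb G R ∅ = ∅ by simp [nb], card_empty, Nat.cast_zero]; positivity⟩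
    have hN1 : (1 : ℝ) ≤ N := by exact_mod_cast hN
    by_cases h : N₀ ≤ N
    · obtain ⟨X, a, b, d, e⟩ := H V G hs R N h hR
      obtain ⟨X', a', b', e'⟩ := ih (N - X.card) (by omega) (R \ X)
        (by have := le_card_sdiff X R; omega)
      refine ⟨X ∪ X', union_subset a (a'.trans sdiff_subset), by
        rw [card_union_of_disjoint (disjoint_sdiff.mono_right a')]; omega, ?_⟩
      have b1 : ((nb G R (X ∪ X')).card : ℝ) ≤ (nb G R X).card + (nb G (R \ X) X').card := by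
        have : nb G R (X ∪ X') ⊆ nb G R X ∪ nb G (R \ X) X' := fun v hv => by
          simp only [mem_nb, mem_union, mem_sdiff, or_and_right, exists_or, not_or] at hv ⊢
          exact hv.2.2.imp (⟨hv.1, hv.2.1.1, ·⟩) (⟨⟨hv.1, hv.2.1.1⟩, hv.2.1.2, ·⟩)
        exact_mod_cast (card_le_card this).trans (card_union_le _ _)
      have b2 : (X.card : ℝ) ^ (1 - c) ≤ (N : ℝ) ^ (1 - c) :=
        Real.rpow_le_rpow (by positivity) (by exact_mod_cast d) (by linarith)
      have b3 : ((N - X.card : ℕ) : ℝ) ^ (1 - c) ≤ 9 / 10 * (N : ℝ) ^ (1 - c) := by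
        have b' : (N : ℝ) ≤ 5 * X.card := by exact_mod_cast b
        refine (Real.rpow_le_rpow (by positivity) (show _ ≤ (9 / 10) ^ (2 : ℝ) * (N : ℝ) by
          rw [Nat.cast_sub d]; norm_num; linarith) (by linarith)).trans ?_
        rw [Real.mul_rpow (by positivity) (by positivity), ← Real.rpow_mul (by norm_num)]
        gcongr
        exact (Real.rpow_le_rpow_of_exponent_ge (by norm_num) (by norm_num)
          (by linarith)).trans_eq (Real.rpow_one _)
      have b4 := mul_le_mul_of_nonneg_left b2 hK.le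
      have b5 := mul_le_mul_of_nonneg_left b3
        (show 0 ≤ 10 * K + 5 * N₀ * (1 + K) by positivity)
      have b6 : 0 ≤ N₀ * (1 + K) * (N : ℝ) ^ (1 - c) := by positivity
      nlinarith
    · obtain ⟨Z, z1, z2, z3⟩ : ∃ Z ⊆ R, N ≤ Z.card ∧
          (Z.card : ℝ) + (nb G R Z).card ≤ 5 * N₀ * (1 + K) := by
        by_cases h' : 5 * N₀ ≤ R.card
        · obtain ⟨X, a, b, d, e⟩ := H V G hs R (5 * N₀) (by omega) h'
          have d' : (X.card : ℝ) ≤ 5 * N₀ := by exact_mod_cast d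
          have b2 : (X.card : ℝ) ^ (1 - c) ≤ X.card :=
            (Real.rpow_le_rpow_of_exponent_le (by exact_mod_cast (by omega : 1 ≤ X.card))
              (by linarith)).trans_eq (Real.rpow_one _)
          exact ⟨X, a, by omega, by nlinarith⟩
        · have d' : (R.card : ℝ) ≤ 5 * N₀ := by exact_mod_cast (not_le.1 h').le
          refine ⟨R, Subset.rfl, hR, ?_⟩
          rw [show nb G R R = ∅ from filter_eq_empty_iff.2 fun v hv h => h.1 hv, card_empty]
          have : 0 ≤ N₀ * K := by positivity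
          push_cast
          linarith
      obtain ⟨X, a, b⟩ := exists_subset_card_eq z2
      refine ⟨X, a.trans z1, b, ?_⟩
      have b1 : ((nb G R X).card : ℝ) ≤ Z.card + (nb G R Z).card := by
        have : nb G R X ⊆ Z ∪ nb G R Z := fun v hv => by
          obtain ⟨c1, -, u, hu, e⟩ := mem_nb.1 hv
          exact mem_union.2 (or_iff_not_imp_left.2 fun h => mem_nb.2 ⟨c1, h, u, a hu, e⟩)
        exact_mod_cast (card_le_card this).trans (card_union_le _ _)
      exact (b1.trans z3).trans ((by linarith : _ ≤ 10 * K + 5 * N₀ * (1 + K)).trans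
        (le_mul_of_one_le_right (by positivity) (Real.one_le_rpow hN1 (by linarith))))

theorem main (q : ℕ) (hq : 2 ≤ q) : ∃ C : ℝ, ∀ (V : Type) [Fintype V] (G : SimpleGraph V),
    HasPow G q ∨ ∀ N ≤ Fintype.card V, ∃ X : Finset V, X.card = N ∧
      ((nb G univ X).card : ℝ) ≤ C * (N : ℝ) ^ (1 - 1 / (8 * (q : ℝ))) := by
  obtain ⟨C, hC, H⟩ := sep q hq
  have hq' : (2 : ℝ) ≤ q := by exact_mod_cast hq
  obtain ⟨K, hK⟩ := exact_size (c := 1 / (8 * (q : ℝ))) (by positivity)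
    (one_div_le_one_div_of_le (by norm_num) (by linarith)) hC
  refine ⟨K, fun V _ G => or_iff_not_imp_left.2 fun h N hN => ?_⟩
  obtain ⟨X, -, a⟩ := hK V G (H V G h) N univ hN
  exact ⟨X, a⟩

end Pool.Agent.P.MP_bb4f54_co.Iso
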