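import Pool.Agent.P.MP_bb4f54_co.Iso.Dig

/-! A large shallow clique model gives a cycle whose length is a power. -/

set_option autoImplicit false

namespace Pool.Agent.P.MP_bb4f54_co.Iso

open Finset SimpleGraph

variable {V : Type}

/-- joined inside `S` by a walk of length at most `ρ` -/
def Jn (G : SimpleGraph V) (S : Finset V) (ρ : ℕ) (u v : V) : Prop :=
  ∃ p : G.Walk u v, p.length ≤ ρ ∧ ∀ z ∈ p.support, z ∈ S

/-- a clique model whose sets have small diameter -/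
structure Model (G : SimpleGraph V) (ρ : ℕ) (F : Finset (Finset V)) : Prop where
  con : ∀ X ∈ F, ∀ u ∈ X, ∀ v ∈ X, Jn G X ρ u v
  dis : ∀ X ∈ F, ∀ Y ∈ F, X ≠ Y → Disjoint X Y
  adj : ∀ X ∈ F, ∀ Y ∈ F, X ≠ Y → ∃ u ∈ X, ∃ v ∈ Y, G.Adj u v

/-- a path of length `n` inside `S` -/
def Pa (G : SimpleGraph V) (S : Set V) (u v : V) (n : ℕ) : Prop :=
  ∃ p : G.Walk u v, p.IsPath ∧ p.length = n ∧ ∀ z ∈ p.support, z ∈ S

/-- a cycle whose length is a `q`-th power -/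
def HasPow (G : SimpleGraph V) (q : ℕ) : Prop :=
  ∃ a : ℕ, 2 ≤ a ∧ ∃ (v : V) (c : G.Walk v v), c.IsCycle ∧ c.length = a ^ q

variable {G : SimpleGraph V}

theorem Pa.mono {S S' : Set V} {u v : V} {n : ℕ} (h : Pa G S u v n) (e : S ⊆ S') :
    Pa G S' u v n :=
  h.imp fun _ k => ⟨k.1, k.2.1, fun z hz => e (k.2.2 z hz)⟩

theorem Pa.join {S S' : Set V} {u v u' v' : V} {n n' : ℕ} (h : Pa G S u v n)
    (h' : Pa G S' u' v' n') (d : Disjoint S S') (e : G.Adj v u') :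
    Pa G (S ∪ S') u v' (n + n' + 1) := by
  obtain ⟨p, a, rfl, b⟩ := h
  obtain ⟨p', a', rfl, b'⟩ := h'
  refine ⟨p.append (.cons e p'), ?_, by simp [add_assoc], fun z hz => ?_⟩
  · rw [Walk.isPath_def, Walk.support_append, Walk.support_cons, List.tail_cons]
    exact List.Nodup.append a.support_nodup a'.support_nodup fun z h1 h2 =>
      Set.disjoint_left.1 d (b z h1) (b' z h2)
  · rw [Walk.support_append, Walk.support_cons, List.tail_cons, List.mem_append] at hz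
    exact hz.imp (b z) (b' z)

theorem Jn.pa [DecidableEq V] {S : Finset V} {ρ : ℕ} {u v : V} (h : Jn G S ρ u v) :
    ∃ n ≤ ρ, Pa G S u v n := by
  obtain ⟨p, a, b⟩ := h
  exact ⟨_, p.length_bypass_le_length.trans a, p.bypass, p.bypass_isPath, rfl,
    fun z hz => b z (p.support_bypass_subset_support hz)⟩

theorem minor (q : ℕ) (hq : 2 ≤ q) : ∃ C : ℕ, ∀ (V : Type) [DecidableEq V] (G : SimpleGraph V)
    (ρ : ℕ) (F : Finset (Finset V)), Model G ρ F → F.card = C * (ρ + 1) ^ (2 * q - 1) →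
      HasPow G q := by
  obtain ⟨C, H⟩ := dig q hq
  generalize 2 * q - 1 = e at H ⊢
  refine ⟨2 * (C * 2 ^ e), fun V _ G ρ F hF hc => ?_⟩
  obtain ⟨φ⟩ : Nonempty (Fin (C * (2 * (ρ + 1)) ^ e) × Bool ≃ F) :=
    ⟨Fintype.equivOfCardEq (by simp [hc, mul_pow]; ring)⟩
  have hne : ∀ {h h'}, h ≠ h' → (φ h).1 ≠ (φ h').1 := fun n e => n (φ.injective (Subtype.ext e))
  have hadj := fun h h' (n : h ≠ h') => hF.adj _ (φ h).2 _ (φ h').2 (hne n)
  choose y hy x hx hxy using fun i => hadj (i, false) (i, true) (by simp)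
  let S : Set (Fin (C * (2 * (ρ + 1)) ^ e) × Bool) → Set V := fun H => {v | ∃ h ∈ H, v ∈ (φ h).1}
  have hS : ∀ H H', Disjoint H H' → Disjoint (S H) (S H') := fun H H' d =>
    Set.disjoint_left.2 fun v ⟨h, a, b⟩ ⟨h', a', b'⟩ => disjoint_left.1
      (hF.dis _ (φ h).2 _ (φ h').2 (hne fun e => Set.disjoint_left.1 d a (e ▸ a'))) b b'
  have hw : ∀ i j, ∃ k, k + 1 ≤ 2 * (ρ + 1) ∧ Pa G (S {(i, true), (j, false)}) (x i) (y j) k := by
    intro i j
    obtain ⟨u, hu, v, hv, huv⟩ := hadj (i, true) (j, false) (by simp)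
    obtain ⟨n, h1, h2⟩ := (hF.con _ (φ _).2 _ (hx i) _ hu).pa
    obtain ⟨n', h1', h2'⟩ := (hF.con _ (φ _).2 _ hv _ (hy j)).pa
    refine ⟨_, by omega, (h2.join h2' (disjoint_coe.2
      (hF.dis _ (φ _).2 _ (φ _).2 (hne (by simp)))) huv).mono ?_⟩
    rintro z (hz | hz)
    · exact ⟨_, by simp, hz⟩
    · exact ⟨_, by simp, hz⟩
  choose k hk hp using hw
  obtain ⟨s, U, a, n, h1, p, h2, h3, -⟩ := H _ (fun i j => k i j + 1) (2 * (ρ + 1))
    (fun s t U σ => ∃ n, σ = n + 1 ∧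
      Pa G (S {h | h = (s, true) ∨ h = (t, false) ∨ h.1 ∈ U}) (x s) (y t) n) (by omega)
    (fun i j => ⟨by omega, hk i j⟩)
    ⟨fun s t _ => ⟨_, rfl, (hp s t).mono fun z ⟨h, a, b⟩ => ⟨h, by simpa using a, b⟩⟩,
      fun s t U σ a ⟨n, h1, h2⟩ st tU aU at' => ⟨n + k t a + 1, by omega,
        (h2.join (hp t a) (hS _ _ (by
          rw [Set.disjoint_right]
          rintro h (rfl | rfl) <;> simp [st.symm, tU, aU, at'])) (hxy t)).mono (by
          rintro z (⟨h, a, b⟩ | ⟨h, a, b⟩) <;> refine ⟨h, ?_, b⟩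
          · rcases a with rfl | rfl | a <;> simp [*]
          · rcases a with rfl | rfl <;> simp)⟩,
      fun s t U U' σ hU ⟨n, h1, h2⟩ => ⟨n, h1, h2.mono fun z ⟨h, a, b⟩ =>
        ⟨h, a.imp_right (·.imp_right (hU ·)), b⟩⟩⟩ (by simp)
  have hn : n ≠ 0 := by
    rintro rfl
    exact (hxy s).ne' (Walk.eq_of_length_eq_zero h3)
  have ha : 2 ≤ a := by
    by_contra hc
    have := Nat.pow_le_pow_left (show a ≤ 1 by omega) q
    rw [one_pow] at this
    omega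
  have h4 : 2 ^ 2 ≤ a ^ q := (Nat.pow_le_pow_left ha 2).trans (Nat.pow_le_pow_right (by omega) hq)
  refine ⟨a, ha, y s, .cons (hxy s) p, (Walk.cons_isCycle_iff _ _).2 ⟨h2, fun he => ?_⟩,
    by simp [h3, h1]⟩
  rw [Sym2.eq_swap] at he
  have := h2.length_eq_one_of_mem_edges he
  omega

end Pool.Agent.P.MP_bb4f54_co.Iso
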