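import Pool.Agent.P.MP_bb4f54_co.Iso.Minor

/-! A small separator or a shallow clique model. -/

set_option autoImplicit false

namespace Pool.Agent.P.MP_bb4f54_co.Iso

open Finset SimpleGraph Classical

variable {V : Type} {G : SimpleGraph V}

/-- the neighbours of `A` in `R` outside `A` -/
noncomputable def nb (G : SimpleGraph V) (R A : Finset V) : Finset V :=
  R.filter fun v => v ∉ A ∧ ∃ u ∈ A, G.Adj u v

theorem mem_nb {R A : Finset V} {v : V} : v ∈ nb G R A ↔ v ∈ R ∧ v ∉ A ∧ ∃ u ∈ A, G.Adj u v :=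
  mem_filter

theorem Jn.mono {S S' : Finset V} {ρ ρ' : ℕ} {u v : V} (h : Jn G S ρ u v) (e : S ⊆ S')
    (e' : ρ ≤ ρ') : Jn G S' ρ' u v :=
  h.imp fun _ k => ⟨k.1.trans e', fun z hz => e (k.2 z hz)⟩

theorem Jn.symm {S : Finset V} {ρ : ℕ} {u v : V} (h : Jn G S ρ u v) : Jn G S ρ v u := by
  obtain ⟨p, a, b⟩ := h
  exact ⟨p.reverse, by simpa using a, fun z hz => b z (by simpa using hz)⟩

theorem Jn.trans {S : Finset V} {ρ ρ' : ℕ} {u v z : V} (h : Jn G S ρ u v) (h' : Jn G S ρ' v z) :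
    Jn G S (ρ + ρ') u z := by
  obtain ⟨p, a, b⟩ := h
  obtain ⟨p', a', b'⟩ := h'
  refine ⟨p.append p', by simp; omega, fun y hy => ?_⟩
  exact ((Walk.mem_support_append_iff _ _).1 hy).elim (b y) (b' y)

theorem ball_big {R : Finset V} {l j : ℕ} (hR : R.card ≤ 2 ^ j)
    (hx : ∀ A ⊆ R, A.Nonempty → 2 * A.card ≤ R.card → A.card < l * (nb G R A).card)
    {v : V} (hv : v ∈ R) : R.card < 2 * (R.filter (Jn G R (l * j) v)).card := by
  let B : ℕ → Finset V := fun i => R.filter (Jn G R i v)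
  have h0 : ∀ i, v ∈ B i := fun i => mem_filter.2 ⟨hv, .nil, by simp, by simpa using hv⟩
  have h1 : ∀ {i i'}, i ≤ i' → (B i).card ≤ (B i').card := fun e => card_le_card fun z hz =>
    mem_filter.2 ⟨(mem_filter.1 hz).1, (mem_filter.1 hz).2.mono Subset.rfl e⟩
  have h2 : ∀ i, (B i).card + (nb G R (B i)).card ≤ (B (i + 1)).card := fun i => by
    rw [← card_union_of_disjoint (disjoint_right.2 fun z hz => (mem_nb.1 hz).2.1)]
    refine card_le_card (union_subset (fun z hz => mem_filter.2 ⟨(mem_filter.1 hz).1,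
      (mem_filter.1 hz).2.mono Subset.rfl (Nat.le_succ _)⟩) fun z hz => ?_)
    obtain ⟨a, -, u, hu, e⟩ := mem_nb.1 hz
    exact mem_filter.2 ⟨a, (mem_filter.1 hu).2.trans
      ⟨e.toWalk, by simp, by simpa using ⟨(mem_filter.1 hu).1, a⟩⟩⟩
  have h3 : ∀ i k, 2 * (B (i + k)).card ≤ R.card →
      (l + k) * (B i).card ≤ l * (B (i + k)).card := fun i k => by
    induction k with
    | zero => simp
    | succ k ih =>
      intro h
      have a1 := h1 (show i + k ≤ i + (k + 1) by omega)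
      have a2 := ih (by omega)
      have a3 := hx (B (i + k)) (filter_subset _ _) ⟨v, h0 _⟩ (by omega)
      have a4 := Nat.mul_le_mul_left l (h2 (i + k))
      have a5 := h1 (show i ≤ i + k by omega)
      rw [mul_add] at a4
      rw [← add_assoc, ← add_assoc, add_mul, one_mul]
      omega
  have h4 : ∀ k, 2 * (B (l * k)).card ≤ R.card → 2 ^ k ≤ (B (l * k)).card := fun k => by
    induction k with
    | zero => exact fun _ => card_pos.2 ⟨v, h0 _⟩
    | succ k ih =>
      intro h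
      have a1 := h1 (show l * k ≤ l * (k + 1) by rw [mul_add]; omega)
      have a2 := ih (by omega)
      have a3 := hx (B (l * k)) (filter_subset _ _) ⟨v, h0 _⟩ (by omega)
      rw [mul_add, mul_one] at h ⊢
      have a4 := h3 _ _ h
      have a5 : 0 < l := Nat.pos_of_ne_zero fun e => by simp [e] at a3
      have a6 : 2 * (B (l * k)).card ≤ (B (l * k + l)).card :=
        Nat.le_of_mul_le_mul_left (by linarith) a5
      omega
  by_contra hc
  have := h4 j (not_lt.1 hc)
  have : 0 < 2 ^ j := by positivity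
  change ¬ R.card < 2 * (B (l * j)).card at hc
  omega

theorem diam {R : Finset V} {l j : ℕ} (hR : R.card ≤ 2 ^ j)
    (hx : ∀ A ⊆ R, A.Nonempty → 2 * A.card ≤ R.card → A.card < l * (nb G R A).card)
    {u v : V} (hu : u ∈ R) (hv : v ∈ R) : Jn G R (2 * (l * j)) u v := by
  have h1 := ball_big hR hx hu
  have h2 := ball_big hR hx hv
  obtain ⟨z, hz⟩ : (R.filter (Jn G R (l * j) u) ∩ R.filter (Jn G R (l * j) v)).Nonempty := by
    have h3 := card_union_add_card_inter (R.filter (Jn G R (l * j) u))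
      (R.filter (Jn G R (l * j) v))
    have h4 := card_le_card (union_subset (filter_subset (Jn G R (l * j) u) R)
      (filter_subset (Jn G R (l * j) v) R))
    exact card_pos.1 (by omega)
  rw [two_mul]
  exact (mem_filter.1 (mem_inter.1 hz).1).2.trans (mem_filter.1 (mem_inter.1 hz).2).2.symm

theorem spider {R : Finset V} {r : ℕ} {v : V} (hv : v ∈ R) (Z : Finset V)
    (h : ∀ z ∈ Z, Jn G R r v z) : ∃ X ⊆ R, v ∈ X ∧ Z ⊆ X ∧ X.card ≤ 1 + Z.card * (r + 1) ∧
      ∀ z ∈ X, Jn G X r v z := by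
  induction Z using Finset.induction_on with
  | empty => exact ⟨{v}, by simpa using hv, by simp, by simp, by simp, fun z hz => by
      obtain rfl := mem_singleton.1 hz
      exact ⟨.nil, by simp, by simp⟩⟩
  | insert z Z hz ih =>
    obtain ⟨X, a, b, c, d, e⟩ := ih fun y hy => h y (mem_insert_of_mem hy)
    obtain ⟨p, p1, p2⟩ := h z (mem_insert_self _ _)
    refine ⟨X ∪ p.support.toFinset, union_subset a fun y hy => p2 y (List.mem_toFinset.1 hy),
      mem_union_left _ b, insert_subset (by simp) (c.trans subset_union_left), ?_, fun y hy => ?_⟩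
    · have h1 := card_union_le X p.support.toFinset
      have h2 := List.toFinset_card_le p.support
      rw [Walk.length_support] at h2
      rw [card_insert_of_notMem hz, add_mul]
      omega
    · rcases mem_union.1 hy with hy | hy
      · exact (e y hy).mono subset_union_left le_rfl
      · exact ⟨p.takeUntil y (List.mem_toFinset.1 hy), (p.length_takeUntil_le_length _).trans p1,
          fun a ha => mem_union_right _
            (List.mem_toFinset.2 (p.support_takeUntil_subset_support _ ha))⟩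

/-- a balanced separation of `Y` with at most `s` vertices in the middle -/
def Sep (G : SimpleGraph V) (Y : Finset V) (s : ℝ) : Prop :=
  ∃ A B S : Finset V, (∀ v ∈ Y, v ∈ A ∨ v ∈ B ∨ v ∈ S) ∧ Disjoint A B ∧
    (∀ u ∈ A, ∀ v ∈ B, ¬ G.Adj u v) ∧ 3 * A.card ≤ 2 * Y.card ∧ 3 * B.card ≤ 2 * Y.card ∧
      (S.card : ℝ) ≤ s

/-- a state of the search -/
structure St (G : SimpleGraph V) (Y : Finset V) (l r h : ℕ) (F : Finset (Finset V))
    (R D S : Finset V) : Prop where
  md : Model G (r + r) F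
  sz : ∀ X ∈ F, X ⊆ Y ∧ Disjoint X R ∧ X.card ≤ 1 + h * (r + 1)
  ch : F.card ≤ h
  ry : R ⊆ Y
  dy : D ⊆ Y
  dr : Disjoint D R
  na : ∀ u ∈ D, ∀ v ∈ R, ¬ G.Adj u v
  bd : 3 * D.card ≤ 2 * Y.card
  bs : l * S.card ≤ D.card
  cov : ∀ v ∈ Y, v ∈ D ∨ v ∈ R ∨ v ∈ S ∨ ∃ X ∈ F, v ∈ X

theorem St.move {Y : Finset V} {l j h : ℕ} (hY : Y.card ≤ 2 ^ j) {F : Finset (Finset V)}
    {R D S : Finset V} (s : St G Y l (2 * (l * j)) h F R D S) (h1 : 2 * Y.card < 3 * R.card)
    (h2 : F.card < h) : ∃ F' R' D' S', St G Y l (2 * (l * j)) h F' R' D' S' ∧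
      (h + 1) * R'.card + F'.card < (h + 1) * R.card + F.card := by
  have hDR : ∀ D' ⊆ Y, Disjoint D' R → D'.card + R.card ≤ Y.card := fun D' a b => by
    rw [← card_union_of_disjoint b]
    exact card_le_card (union_subset a s.ry)
  by_cases c1 : ∃ X ∈ F, ∀ u ∈ X, ∀ v ∈ R, ¬ G.Adj u v
  · obtain ⟨X, hX, hn⟩ := c1
    have e : ∀ {Z}, Z ∈ F.erase X → Z ∈ F := mem_of_mem_erase
    have a := union_subset s.dy (s.sz X hX).1
    have b := disjoint_union_left.2 ⟨s.dr, (s.sz X hX).2.1⟩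
    refine ⟨F.erase X, R, D ∪ X, S, ⟨⟨fun Z h => s.md.con Z (e h),
      fun Z h Z' h' => s.md.dis Z (e h) Z' (e h'), fun Z h Z' h' => s.md.adj Z (e h) Z' (e h')⟩,
      fun Z h => s.sz Z (e h), card_erase_le.trans s.ch, s.ry, a, b,
      fun u hu => (mem_union.1 hu).elim (s.na u) (hn u), by have := hDR _ a b; omega,
      s.bs.trans (card_le_card subset_union_left), fun v hv => ?_⟩,
      by have := card_erase_lt_of_mem hX; omega⟩
    rcases s.cov v hv with k | k | k | ⟨Z, hZ, k⟩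
    · simp [k]
    · simp [k]
    · simp [k]
    · by_cases e : Z = X
      · simp [← e, k]
      · exact .inr (.inr (.inr ⟨Z, mem_erase.2 ⟨e, hZ⟩, k⟩))
  by_cases c2 : ∃ A ⊆ R, A.Nonempty ∧ 2 * A.card ≤ R.card ∧ l * (nb G R A).card ≤ A.card
  · obtain ⟨A, hA, ⟨a, ha⟩, a1, a2⟩ := c2
    have a3 := card_union_of_disjoint (s.dr.mono_right hA)
    have a4 := hDR D s.dy s.dr
    have a5 := Nat.mul_le_mul_left l (card_union_le S (nb G R A))
    have a6 := s.bs
    have a7 : (R \ (A ∪ nb G R A)).card < R.card :=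
      card_lt_card (sdiff_ssubset (union_subset hA (filter_subset _ _)) ⟨a, by simp [ha]⟩)
    rw [mul_add] at a5
    refine ⟨F, R \ (A ∪ nb G R A), D ∪ A, S ∪ nb G R A, ⟨s.md, fun Z h => ⟨(s.sz Z h).1,
      (s.sz Z h).2.1.mono_right sdiff_subset, (s.sz Z h).2.2⟩, s.ch, sdiff_subset.trans s.ry,
      union_subset s.dy (hA.trans s.ry), disjoint_union_left.2 ⟨s.dr.mono_right sdiff_subset,
        disjoint_sdiff.mono_left subset_union_left⟩, fun u hu v hv e => ?_, by omega, by omega,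
      fun v hv => ?_⟩, by nlinarith⟩
    · simp only [mem_sdiff, mem_union, not_or] at hv
      rcases mem_union.1 hu with hu | hu
      · exact s.na u hu v hv.1 e
      · exact hv.2.2 (mem_nb.2 ⟨hv.1, hv.2.1, u, hu, e⟩)
    · have := s.cov v hv
      simp only [mem_sdiff, mem_union]
      tauto
  push Not at c1 c2
  obtain ⟨v, hv⟩ : R.Nonempty := card_pos.1 (by omega)
  have : Nonempty V := ⟨v⟩
  choose! u hu z hz e using c1
  obtain ⟨X, a, b, c, d, f⟩ := spider hv (F.image z) fun y hy => by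
    obtain ⟨Z, hZ, rfl⟩ := mem_image.1 hy
    exact diam ((card_le_card s.ry).trans hY) c2 hv (hz Z hZ)
  have a7 : (R \ X).card < R.card := card_lt_card (sdiff_ssubset a ⟨v, b⟩)
  have a8 := card_insert_le X F
  have a9 : ∀ Z ∈ F, ∃ u ∈ Z, ∃ v ∈ X, G.Adj u v := fun Z hZ =>
    ⟨u Z, hu Z hZ, z Z, c (mem_image_of_mem _ hZ), e Z hZ⟩
  refine ⟨insert X F, R \ X, D, S, ⟨⟨?_, ?_, ?_⟩, ?_, by omega, sdiff_subset.trans s.ry, s.dy,
    s.dr.mono_right sdiff_subset, fun u hu v hv => s.na u hu v (mem_sdiff.1 hv).1, s.bd, s.bs,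
    fun v hv => ?_⟩, by nlinarith⟩
  · exact forall_mem_insert _ _ _ |>.2
      ⟨fun y hy y' hy' => (f y hy).symm.trans (f y' hy'), s.md.con⟩
  · simp only [forall_mem_insert]
    exact ⟨⟨fun h => (h rfl).elim, fun Z hZ _ => ((s.sz Z hZ).2.1.mono_right a).symm⟩,
      fun Z hZ => ⟨fun _ => (s.sz Z hZ).2.1.mono_right a, s.md.dis Z hZ⟩⟩
  · simp only [forall_mem_insert]
    refine ⟨⟨fun h => (h rfl).elim, fun Z hZ _ => ?_⟩,
      fun Z hZ => ⟨fun _ => a9 Z hZ, s.md.adj Z hZ⟩⟩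
    obtain ⟨u, hu, v, hv, e⟩ := a9 Z hZ
    exact ⟨v, hv, u, hu, e.symm⟩
  · exact forall_mem_insert _ _ _ |>.2 ⟨⟨a.trans s.ry, disjoint_sdiff, d.trans (by
      gcongr; exact card_image_le.trans s.ch)⟩, fun Z h => ⟨(s.sz Z h).1,
      (s.sz Z h).2.1.mono_right sdiff_subset, (s.sz Z h).2.2⟩⟩
  · have := s.cov v hv
    simp only [mem_sdiff, exists_mem_insert]
    tauto

theorem prs {Y : Finset V} {l j : ℕ} (h : ℕ) (hY : Y.card ≤ 2 ^ j) (hl : 0 < l) :
    (∃ F, Model G (2 * (l * j) + 2 * (l * j)) F ∧ F.card = h) ∨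
      Sep G Y (Y.card / l + (h * (1 + h * (2 * (l * j) + 1)) : ℕ)) := by
  have key : ∀ μ F R D S, St G Y l (2 * (l * j)) h F R D S → (h + 1) * R.card + F.card = μ →
      ∃ F R D S, St G Y l (2 * (l * j)) h F R D S ∧ (3 * R.card ≤ 2 * Y.card ∨ F.card = h) := by
    intro μ
    induction μ using Nat.strong_induction_on with
    | _ μ ih =>
      intro F R D S s e
      by_cases c : 3 * R.card ≤ 2 * Y.card ∨ F.card = h
      · exact ⟨F, R, D, S, s, c⟩
      · have := s.ch
        obtain ⟨F', R', D', S', s', e'⟩ := s.move hY (by omega) (by omega)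
        exact ih _ (e ▸ e') _ _ _ _ s' rfl
  obtain ⟨F, R, D, S, s, c | c⟩ := key _ ∅ Y ∅ ∅ ⟨⟨by simp, by simp, by simp⟩, by simp, by simp,
    Subset.rfl, by simp, by simp, by simp, by simp, by simp, fun v hv => by simp [hv]⟩ rfl
  · refine .inr ⟨D, R, S ∪ F.biUnion id, fun v hv => by simpa using s.cov v hv, s.dr, s.na, s.bd,
      c, ?_⟩
    have a1 := card_union_le S (F.biUnion id)
    have a2 := (card_biUnion_le_card_mul F id _ fun X hX => (s.sz X hX).2.2).trans
      (Nat.mul_le_mul_right _ s.ch)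
    have a3 : (S.card : ℝ) ≤ Y.card / l := by
      rw [le_div_iff₀ (by positivity), mul_comm]
      exact_mod_cast s.bs.trans (card_le_card s.dy)
    have a4 : ((S ∪ F.biUnion id).card : ℝ) ≤ S.card + (h * (1 + h * (2 * (l * j) + 1)) : ℕ) := by
      exact_mod_cast a1.trans (Nat.add_le_add_left a2 _)
    linarith
  · exact .inl ⟨F, s.md, c⟩

end Pool.Agent.P.MP_bb4f54_co.Iso
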